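import Pool.Agent.Lib.MP_8fac41_lc.FR.E.Stmt
import Pool.Agent.Lib.MP_4d8715_gt.KR.E.Deep
import Pool.Agent.Lib.MP_4d8715_gt.KR.E.ExtK

/-!
# The formula of the statement, its truth in a structure and its Boolean value

For every definition `P` of `E/Stmt.lean` there are the formula `fP` and its Boolean reading `Kc.P`
(those of the basic notions are in the namespace `Pool.Agent.Lib.MP_4d8715_gt.KR` and were
made for another problem).
-/

universe u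

namespace Pool.Agent.Lib.MP_8fac41_lc.FR

open Pool.Agent.Lib.MP_4d8715_gt.KR

/-! ### Boolean readings -/

namespace Kc

open BSet Kb

variable {B : Type u} [CompleteBooleanAlgebra B]

/-- ordinal -/
def Ordl (x : BSet B) : B :=
  (⨅ y, bmem y x ⇨ Sub y x) ⊓ (⨅ y, bmem y x ⇨ (⨅ z, bmem z y ⇨ Sub z y))

/-- limit ordinal -/
def Lim (l : BSet B) : B :=
  Ordl l ⊓ ((⨆ a, bmem a l) ⊓ (⨅ a, bmem a l ⇨ (⨆ b, bmem b l ⊓ bmem a b)))

/-- ultrafilter -/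
def UltraF (d U : BSet B) : B :=
  (⨅ X, bmem X U ⇨ Sub X d) ⊓ ((⨅ X, ⨅ Y, bmem X U ⇨ Sub X Y ⇨ Sub Y d ⇨ bmem Y U) ⊓ ((⨅ X, ⨅ Y,
    ⨅ Z, bmem X U ⇨ bmem Y U ⇨ (⨅ z, iffB (bmem z Z) (bmem z X ⊓ bmem z Y)) ⇨ bmem Z U) ⊓ (⨅ X,
    ⨅ Y, Sub X d ⇨ (⨅ z, iffB (bmem z Y) (bmem z d ⊓ (bmem z X)ᶜ)) ⇨ iffB (bmem X U) ((bmem Y
    U)ᶜ))))

/-- nonprincipal -/
def NonPr (d U : BSet B) : B :=
  ⨅ a, ⨅ X, bmem a d ⇨ (⨅ z, iffB (bmem z X) (beq z a)) ⇨ (bmem X U)ᶜ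

/-- complete -/
def Compl (d U : BSet B) : B :=
  ⨅ a, ⨅ F, ⨅ Z, bmem a d ⇨ FunTo F a U ⇨ (⨅ z, iffB (bmem z Z) (bmem z d ⊓ (⨅ b, ⨅ X, App F b X
    ⇨ bmem z X))) ⇨ bmem Z U

/-- normal -/
def Diag (d U : BSet B) : B :=
  ⨅ F, ⨅ Z, FunTo F d U ⇨ (⨅ z, iffB (bmem z Z) (bmem z d ⊓ (⨅ b, ⨅ X, bmem b z ⇨ App F b X ⇨
    bmem z X))) ⇨ bmem Z U

/-- normal ultrafilter on a measurable cardinal -/
def NormU (w d U : BSet B) : B :=
  Ordl d ⊓ (bmem w d ⊓ (UltraF d U ⊓ (NonPr d U ⊓ (Compl d U ⊓ Diag d U))))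

/-- membership in the ultrapower -/
def MemU (U h g : BSet B) : B :=
  ⨆ X, bmem X U ⊓ (⨅ x, ⨅ a, ⨅ b, bmem x X ⇨ App h x a ⇨ App g x b ⇨ bmem a b)

/-- equality in the ultrapower -/
def EqlU (U h g : BSet B) : B :=
  ⨆ X, bmem X U ⊓ (⨅ x, ⨅ a, ⨅ b, bmem x X ⇨ App h x a ⇨ App g x b ⇨ beq a b)

/-- element of the ultrapower -/
def InUlt (d U x : BSet B) : B :=
  ⨆ f, ⨆ D, ⨆ T, FunOn f d ⊓ ((⨅ g, bmem g D ⇨ FunOn g d) ⊓ (FunOn T D ⊓ ((⨅ g, ⨅ h, bmem g D ⊔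
    beq g f ⇨ FunOn h d ⇨ MemU U h g ⇨ (⨆ h', bmem h' D ⊓ EqlU U h' h)) ⊓ ((⨅ g, ⨅ y, ⨅ z, bmem
    g D ⇨ App T g y ⇨ iffB (bmem z y) (⨆ h, bmem h D ⊓ (MemU U h g ⊓ App T h z))) ⊓ (⨅ z, iffB
    (bmem z x) (⨆ h, bmem h D ⊓ (MemU U h f ⊓ App T h z)))))))

/-- unbounded subset -/
def Unb (l A : BSet B) : B :=
  Sub A l ⊓ (⨅ a, bmem a l ⇨ (⨆ b, bmem b A ⊓ bmem a b))

/-- fresh subset -/
def Fresh (d U l A : BSet B) : B :=
  Sub A l ⊓ ((InUlt d U A)ᶜ ⊓ (⨅ a, ⨅ C, bmem a l ⇨ (⨅ z, iffB (bmem z C) (bmem z A ⊓ bmem z a))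
    ⇨ InUlt d U C))

/-- the statement -/
def Config (B : Type u) [CompleteBooleanAlgebra B] : B :=
  ⨆ w : BSet B, ⨆ d, ⨆ U₀, ⨆ U₁, ⨆ l, Omega w ⊓ (NormU w d U₀ ⊓ (NormU w d U₁ ⊓ (Lim l ⊓ ((⨆ A,
    Unb l A ⊓ Fresh d U₀ l A)ᶜ ⊓ (⨆ A, Unb l A ⊓ Fresh d U₁ l A)))))

end Kc

/-! ### The formulas -/

namespace Fm

open Fml

/-- ordinal -/
def fOrdl {n : ℕ} (x : Fin n) : Fml n :=
  and (all (imp (mem 0 x.succ) (fSub 0 x.succ))) (all (imp (mem 0 x.succ) (all (imp (mem 0 (0 :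
    Fin _).succ) (fSub 0 (0 : Fin _).succ)))))

/-- limit ordinal -/
def fLim {n : ℕ} (l : Fin n) : Fml n :=
  and (fOrdl l) (and (ex (mem 0 l.succ)) (all (imp (mem 0 l.succ) (ex (and (mem 0 l.succ.succ)
    (mem (0 : Fin _).succ 0))))))

/-- ultrafilter -/
def fUltraF {n : ℕ} (d U : Fin n) : Fml n :=
  and (all (imp (mem 0 U.succ) (fSub 0 d.succ))) (and (all (all (imp (mem (0 : Fin _).succ
    U.succ.succ) (imp (fSub (0 : Fin _).succ 0) (imp (fSub 0 d.succ.succ) (mem 0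
    U.succ.succ)))))) (and (all (all (all (imp (mem (0 : Fin _).succ.succ U.succ.succ.succ) (imp
    (mem (0 : Fin _).succ U.succ.succ.succ) (imp (all (iff (mem 0 (0 : Fin _).succ) (and (mem 0
    (0 : Fin _).succ.succ.succ) (mem 0 (0 : Fin _).succ.succ)))) (mem 0 U.succ.succ.succ)))))))
    (all (all (imp (fSub (0 : Fin _).succ d.succ.succ) (imp (all (iff (mem 0 (0 : Fin _).succ)
    (and (mem 0 d.succ.succ.succ) (neg (mem 0 (0 : Fin _).succ.succ))))) (iff (mem (0 : Fin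
    _).succ U.succ.succ) (neg (mem 0 U.succ.succ)))))))))

/-- nonprincipal -/
def fNonPr {n : ℕ} (d U : Fin n) : Fml n :=
  all (all (imp (mem (0 : Fin _).succ d.succ.succ) (imp (all (iff (mem 0 (0 : Fin _).succ) (eq 0
    (0 : Fin _).succ.succ))) (neg (mem 0 U.succ.succ)))))

/-- complete -/
def fCompl {n : ℕ} (d U : Fin n) : Fml n :=
  all (all (all (imp (mem (0 : Fin _).succ.succ d.succ.succ.succ) (imp (fFunTo (0 : Fin _).succ
    (0 : Fin _).succ.succ U.succ.succ.succ) (imp (all (iff (mem 0 (0 : Fin _).succ) (and (mem 0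
    d.succ.succ.succ.succ) (all (all (imp (fApp (0 : Fin _).succ.succ.succ.succ (0 : Fin _).succ
    0) (mem (0 : Fin _).succ.succ 0))))))) (mem 0 U.succ.succ.succ))))))

/-- normal -/
def fDiag {n : ℕ} (d U : Fin n) : Fml n :=
  all (all (imp (fFunTo (0 : Fin _).succ d.succ.succ U.succ.succ) (imp (all (iff (mem 0 (0 : Fin
    _).succ) (and (mem 0 d.succ.succ.succ) (all (all (imp (mem (0 : Fin _).succ (0 : Fin
    _).succ.succ) (imp (fApp (0 : Fin _).succ.succ.succ.succ (0 : Fin _).succ 0) (mem (0 : Fin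
    _).succ.succ 0)))))))) (mem 0 U.succ.succ))))

/-- normal ultrafilter on a measurable cardinal -/
def fNormU {n : ℕ} (w d U : Fin n) : Fml n :=
  and (fOrdl d) (and (mem w d) (and (fUltraF d U) (and (fNonPr d U) (and (fCompl d U) (fDiag d
    U)))))

/-- membership in the ultrapower -/
def fMemU {n : ℕ} (U h g : Fin n) : Fml n :=
  ex (and (mem 0 U.succ) (all (all (all (imp (mem (0 : Fin _).succ.succ (0 : Fin
    _).succ.succ.succ) (imp (fApp h.succ.succ.succ.succ (0 : Fin _).succ.succ (0 : Fin _).succ)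
    (imp (fApp g.succ.succ.succ.succ (0 : Fin _).succ.succ 0) (mem (0 : Fin _).succ 0))))))))

/-- equality in the ultrapower -/
def fEqlU {n : ℕ} (U h g : Fin n) : Fml n :=
  ex (and (mem 0 U.succ) (all (all (all (imp (mem (0 : Fin _).succ.succ (0 : Fin
    _).succ.succ.succ) (imp (fApp h.succ.succ.succ.succ (0 : Fin _).succ.succ (0 : Fin _).succ)
    (imp (fApp g.succ.succ.succ.succ (0 : Fin _).succ.succ 0) (eq (0 : Fin _).succ 0))))))))

/-- element of the ultrapower -/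
def fInUlt {n : ℕ} (d U x : Fin n) : Fml n :=
  ex (ex (ex (and (fFunOn (0 : Fin _).succ.succ d.succ.succ.succ) (and (all (imp (mem 0 (0 : Fin
    _).succ.succ) (fFunOn 0 d.succ.succ.succ.succ))) (and (fFunOn 0 (0 : Fin _).succ) (and (all
    (all (imp (or (mem (0 : Fin _).succ (0 : Fin _).succ.succ.succ) (eq (0 : Fin _).succ (0 :
    Fin _).succ.succ.succ.succ)) (imp (fFunOn 0 d.succ.succ.succ.succ.succ) (imp (fMemU
    U.succ.succ.succ.succ.succ 0 (0 : Fin _).succ) (ex (and (mem 0 (0 : Fin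
    _).succ.succ.succ.succ) (fEqlU U.succ.succ.succ.succ.succ.succ 0 (0 : Fin _).succ))))))))
    (and (all (all (all (imp (mem (0 : Fin _).succ.succ (0 : Fin _).succ.succ.succ.succ) (imp
    (fApp (0 : Fin _).succ.succ.succ (0 : Fin _).succ.succ (0 : Fin _).succ) (iff (mem 0 (0 :
    Fin _).succ) (ex (and (mem 0 (0 : Fin _).succ.succ.succ.succ.succ) (and (fMemU
    U.succ.succ.succ.succ.succ.succ.succ 0 (0 : Fin _).succ.succ.succ) (fApp (0 : Fin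
    _).succ.succ.succ.succ 0 (0 : Fin _).succ)))))))))) (all (iff (mem 0 x.succ.succ.succ.succ)
    (ex (and (mem 0 (0 : Fin _).succ.succ.succ) (and (fMemU U.succ.succ.succ.succ.succ 0 (0 :
    Fin _).succ.succ.succ.succ) (fApp (0 : Fin _).succ.succ 0 (0 : Fin _).succ)))))))))))))

/-- unbounded subset -/
def fUnb {n : ℕ} (l A : Fin n) : Fml n :=
  and (fSub A l) (all (imp (mem 0 l.succ) (ex (and (mem 0 A.succ.succ) (mem (0 : Fin _).succ
    0)))))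

/-- fresh subset -/
def fFresh {n : ℕ} (d U l A : Fin n) : Fml n :=
  and (fSub A l) (and (neg (fInUlt d U A)) (all (all (imp (mem (0 : Fin _).succ l.succ.succ)
    (imp (all (iff (mem 0 (0 : Fin _).succ) (and (mem 0 A.succ.succ.succ) (mem 0 (0 : Fin
    _).succ.succ)))) (fInUlt d.succ.succ U.succ.succ 0))))))

/-- the statement -/
def fConfig : Fml 0 :=
  ex (ex (ex (ex (ex (and (fOmega (0 : Fin _).succ.succ.succ.succ) (and (fNormU (0 : Fin
    _).succ.succ.succ.succ (0 : Fin _).succ.succ.succ (0 : Fin _).succ.succ) (and (fNormU (0 :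
    Fin _).succ.succ.succ.succ (0 : Fin _).succ.succ.succ (0 : Fin _).succ) (and (fLim 0) (and
    (neg (ex (and (fUnb (0 : Fin _).succ 0) (fFresh (0 : Fin _).succ.succ.succ.succ (0 : Fin
    _).succ.succ.succ (0 : Fin _).succ 0)))) (ex (and (fUnb (0 : Fin _).succ 0) (fFresh (0 : Fin
    _).succ.succ.succ.succ (0 : Fin _).succ.succ (0 : Fin _).succ 0))))))))))))

section Sat3

variable {M : Type*} (E : M → M → Prop)

theorem sat3_fSub {n : ℕ} (x y : Fin n) (v : Fin n → M) :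
    Sat E (fSub x y) v ↔ Fs.Sub E (v x) (v y) :=
  sat_fSub E x y v

theorem sat3_fUPair {n : ℕ} (p a b : Fin n) (v : Fin n → M) :
    Sat E (fUPair p a b) v ↔ Fs.UPair E (v p) (v a) (v b) :=
  sat_fUPair E p a b v

theorem sat3_fPair {n : ℕ} (p a b : Fin n) (v : Fin n → M) :
    Sat E (fPair p a b) v ↔ Fs.Pair E (v p) (v a) (v b) :=
  sat_fPair E p a b v

theorem sat3_fApp {n : ℕ} (f a b : Fin n) (v : Fin n → M) :
    Sat E (fApp f a b) v ↔ Fs.App E (v f) (v a) (v b) :=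
  sat_fApp E f a b v

theorem sat3_fFunOn {n : ℕ} (f d : Fin n) (v : Fin n → M) :
    Sat E (fFunOn f d) v ↔ Fs.FunOn E (v f) (v d) :=
  sat_fFunOn E f d v

theorem sat3_fFunTo {n : ℕ} (f d r : Fin n) (v : Fin n → M) :
    Sat E (fFunTo f d r) v ↔ Fs.FunTo E (v f) (v d) (v r) :=
  sat_fFunTo E f d r v

theorem sat3_fEmp {n : ℕ} (x : Fin n) (v : Fin n → M) :
    Sat E (fEmp x) v ↔ Fs.Emp E (v x) :=
  sat_fEmp E x v

theorem sat3_fSuc {n : ℕ} (y x : Fin n) (v : Fin n → M) :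
    Sat E (fSuc y x) v ↔ Fs.Suc E (v y) (v x) :=
  sat_fSuc E y x v

theorem sat3_fInd {n : ℕ} (w : Fin n) (v : Fin n → M) :
    Sat E (fInd w) v ↔ Fs.Ind E (v w) :=
  sat_fInd E w v

theorem sat3_fOmega {n : ℕ} (w : Fin n) (v : Fin n → M) :
    Sat E (fOmega w) v ↔ Fs.Omega E (v w) :=
  sat_fOmega E w v

theorem sat3_fOrdl {n : ℕ} (x : Fin n) (v : Fin n → M) :
    Sat E (fOrdl x) v ↔ Fs.Ordl E (v x) := by
  simp only [fOrdl, Fs.Ordl, sat_all, sat_ex, sat_imp, sat_and, sat_or, sat_neg, sat_iff, sat_mem, sat_eq, Fin.cons_zero, Fin.cons_succ, ne_eq, sat3_fSub]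

theorem sat3_fLim {n : ℕ} (l : Fin n) (v : Fin n → M) :
    Sat E (fLim l) v ↔ Fs.Lim E (v l) := by
  simp only [fLim, Fs.Lim, sat_all, sat_ex, sat_imp, sat_and, sat_or, sat_neg, sat_iff, sat_mem, sat_eq, Fin.cons_zero, Fin.cons_succ, ne_eq, sat3_fOrdl]

theorem sat3_fUltraF {n : ℕ} (d U : Fin n) (v : Fin n → M) :
    Sat E (fUltraF d U) v ↔ Fs.UltraF E (v d) (v U) := by
  simp only [fUltraF, Fs.UltraF, sat_all, sat_ex, sat_imp, sat_and, sat_or, sat_neg, sat_iff, sat_mem, sat_eq, Fin.cons_zero, Fin.cons_succ, ne_eq, sat3_fSub]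

theorem sat3_fNonPr {n : ℕ} (d U : Fin n) (v : Fin n → M) :
    Sat E (fNonPr d U) v ↔ Fs.NonPr E (v d) (v U) := by
  simp only [fNonPr, Fs.NonPr, sat_all, sat_ex, sat_imp, sat_and, sat_or, sat_neg, sat_iff, sat_mem, sat_eq, Fin.cons_zero, Fin.cons_succ, ne_eq]

theorem sat3_fCompl {n : ℕ} (d U : Fin n) (v : Fin n → M) :
    Sat E (fCompl d U) v ↔ Fs.Compl E (v d) (v U) := by
  simp only [fCompl, Fs.Compl, sat_all, sat_ex, sat_imp, sat_and, sat_or, sat_neg, sat_iff, sat_mem, sat_eq, Fin.cons_zero, Fin.cons_succ, ne_eq, sat3_fFunTo, sat3_fApp]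

theorem sat3_fDiag {n : ℕ} (d U : Fin n) (v : Fin n → M) :
    Sat E (fDiag d U) v ↔ Fs.Diag E (v d) (v U) := by
  simp only [fDiag, Fs.Diag, sat_all, sat_ex, sat_imp, sat_and, sat_or, sat_neg, sat_iff, sat_mem, sat_eq, Fin.cons_zero, Fin.cons_succ, ne_eq, sat3_fFunTo, sat3_fApp]

theorem sat3_fNormU {n : ℕ} (w d U : Fin n) (v : Fin n → M) :
    Sat E (fNormU w d U) v ↔ Fs.NormU E (v w) (v d) (v U) := by
  simp only [fNormU, Fs.NormU, sat_all, sat_ex, sat_imp, sat_and, sat_or, sat_neg, sat_iff, sat_mem, sat_eq, Fin.cons_zero, Fin.cons_succ, ne_eq, sat3_fOrdl, sat3_fUltraF, sat3_fNonPr, sat3_fCompl, sat3_fDiag]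

theorem sat3_fMemU {n : ℕ} (U h g : Fin n) (v : Fin n → M) :
    Sat E (fMemU U h g) v ↔ Fs.MemU E (v U) (v h) (v g) := by
  simp only [fMemU, Fs.MemU, sat_all, sat_ex, sat_imp, sat_and, sat_or, sat_neg, sat_iff, sat_mem, sat_eq, Fin.cons_zero, Fin.cons_succ, ne_eq, sat3_fApp]

theorem sat3_fEqlU {n : ℕ} (U h g : Fin n) (v : Fin n → M) :
    Sat E (fEqlU U h g) v ↔ Fs.EqlU E (v U) (v h) (v g) := by
  simp only [fEqlU, Fs.EqlU, sat_all, sat_ex, sat_imp, sat_and, sat_or, sat_neg, sat_iff, sat_mem, sat_eq, Fin.cons_zero, Fin.cons_succ, ne_eq, sat3_fApp]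

theorem sat3_fInUlt {n : ℕ} (d U x : Fin n) (v : Fin n → M) :
    Sat E (fInUlt d U x) v ↔ Fs.InUlt E (v d) (v U) (v x) := by
  simp only [fInUlt, Fs.InUlt, sat_all, sat_ex, sat_imp, sat_and, sat_or, sat_neg, sat_iff, sat_mem, sat_eq, Fin.cons_zero, Fin.cons_succ, ne_eq, sat3_fFunOn, sat3_fMemU, sat3_fEqlU, sat3_fApp]

theorem sat3_fUnb {n : ℕ} (l A : Fin n) (v : Fin n → M) :
    Sat E (fUnb l A) v ↔ Fs.Unb E (v l) (v A) := by
  simp only [fUnb, Fs.Unb, sat_all, sat_ex, sat_imp, sat_and, sat_or, sat_neg, sat_iff, sat_mem, sat_eq, Fin.cons_zero, Fin.cons_succ, ne_eq, sat3_fSub]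

theorem sat3_fFresh {n : ℕ} (d U l A : Fin n) (v : Fin n → M) :
    Sat E (fFresh d U l A) v ↔ Fs.Fresh E (v d) (v U) (v l) (v A) := by
  simp only [fFresh, Fs.Fresh, sat_all, sat_ex, sat_imp, sat_and, sat_or, sat_neg, sat_iff, sat_mem, sat_eq, Fin.cons_zero, Fin.cons_succ, ne_eq, sat3_fSub, sat3_fInUlt]

theorem sat3_fConfig :
    Sat E fConfig ![] ↔ Fs.Config E := by
  simp only [fConfig, Fs.Config, sat_all, sat_ex, sat_imp, sat_and, sat_or, sat_neg, sat_iff, sat_mem, sat_eq, Fin.cons_zero, Fin.cons_succ, ne_eq, sat3_fOmega, sat3_fNormU, sat3_fLim, sat3_fUnb, sat3_fFresh]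

end Sat3

section bv3

variable {B : Type u} [CompleteBooleanAlgebra B]

theorem bv3_fOrdl {n : ℕ} (x : Fin n) (v : Fin n → BSet B) :
    bv (fOrdl x) v = Kc.Ordl (v x) := by
  simp only [fOrdl, Kc.Ordl, bv_all, bv_ex, bv_imp, bv_and, bv_or, bv_neg, bv_iffB, bv_mem, bv_eq, Fin.cons_zero, Fin.cons_succ, bv_fSub]

theorem bv3_fLim {n : ℕ} (l : Fin n) (v : Fin n → BSet B) :
    bv (fLim l) v = Kc.Lim (v l) := by
  simp only [fLim, Kc.Lim, bv_all, bv_ex, bv_imp, bv_and, bv_or, bv_neg, bv_iffB, bv_mem, bv_eq, Fin.cons_zero, Fin.cons_succ, bv3_fOrdl]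

theorem bv3_fUltraF {n : ℕ} (d U : Fin n) (v : Fin n → BSet B) :
    bv (fUltraF d U) v = Kc.UltraF (v d) (v U) := by
  simp only [fUltraF, Kc.UltraF, bv_all, bv_ex, bv_imp, bv_and, bv_or, bv_neg, bv_iffB, bv_mem, bv_eq, Fin.cons_zero, Fin.cons_succ, bv_fSub]

theorem bv3_fNonPr {n : ℕ} (d U : Fin n) (v : Fin n → BSet B) :
    bv (fNonPr d U) v = Kc.NonPr (v d) (v U) := by
  simp only [fNonPr, Kc.NonPr, bv_all, bv_ex, bv_imp, bv_and, bv_or, bv_neg, bv_iffB, bv_mem, bv_eq, Fin.cons_zero, Fin.cons_succ]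

theorem bv3_fCompl {n : ℕ} (d U : Fin n) (v : Fin n → BSet B) :
    bv (fCompl d U) v = Kc.Compl (v d) (v U) := by
  simp only [fCompl, Kc.Compl, bv_all, bv_ex, bv_imp, bv_and, bv_or, bv_neg, bv_iffB, bv_mem, bv_eq, Fin.cons_zero, Fin.cons_succ, bv_fFunTo, bv_fApp]

theorem bv3_fDiag {n : ℕ} (d U : Fin n) (v : Fin n → BSet B) :
    bv (fDiag d U) v = Kc.Diag (v d) (v U) := by
  simp only [fDiag, Kc.Diag, bv_all, bv_ex, bv_imp, bv_and, bv_or, bv_neg, bv_iffB, bv_mem, bv_eq, Fin.cons_zero, Fin.cons_succ, bv_fFunTo, bv_fApp]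

theorem bv3_fNormU {n : ℕ} (w d U : Fin n) (v : Fin n → BSet B) :
    bv (fNormU w d U) v = Kc.NormU (v w) (v d) (v U) := by
  simp only [fNormU, Kc.NormU, bv_all, bv_ex, bv_imp, bv_and, bv_or, bv_neg, bv_iffB, bv_mem, bv_eq, Fin.cons_zero, Fin.cons_succ, bv3_fOrdl, bv3_fUltraF, bv3_fNonPr, bv3_fCompl, bv3_fDiag]

theorem bv3_fMemU {n : ℕ} (U h g : Fin n) (v : Fin n → BSet B) :
    bv (fMemU U h g) v = Kc.MemU (v U) (v h) (v g) := by
  simp only [fMemU, Kc.MemU, bv_all, bv_ex, bv_imp, bv_and, bv_or, bv_neg, bv_iffB, bv_mem, bv_eq, Fin.cons_zero, Fin.cons_succ, bv_fApp]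

theorem bv3_fEqlU {n : ℕ} (U h g : Fin n) (v : Fin n → BSet B) :
    bv (fEqlU U h g) v = Kc.EqlU (v U) (v h) (v g) := by
  simp only [fEqlU, Kc.EqlU, bv_all, bv_ex, bv_imp, bv_and, bv_or, bv_neg, bv_iffB, bv_mem, bv_eq, Fin.cons_zero, Fin.cons_succ, bv_fApp]

theorem bv3_fInUlt {n : ℕ} (d U x : Fin n) (v : Fin n → BSet B) :
    bv (fInUlt d U x) v = Kc.InUlt (v d) (v U) (v x) := by
  simp only [fInUlt, Kc.InUlt, bv_all, bv_ex, bv_imp, bv_and, bv_or, bv_neg, bv_iffB, bv_mem, bv_eq, Fin.cons_zero, Fin.cons_succ, bv_fFunOn, bv3_fMemU, bv3_fEqlU, bv_fApp]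

theorem bv3_fUnb {n : ℕ} (l A : Fin n) (v : Fin n → BSet B) :
    bv (fUnb l A) v = Kc.Unb (v l) (v A) := by
  simp only [fUnb, Kc.Unb, bv_all, bv_ex, bv_imp, bv_and, bv_or, bv_neg, bv_iffB, bv_mem, bv_eq, Fin.cons_zero, Fin.cons_succ, bv_fSub]

theorem bv3_fFresh {n : ℕ} (d U l A : Fin n) (v : Fin n → BSet B) :
    bv (fFresh d U l A) v = Kc.Fresh (v d) (v U) (v l) (v A) := by
  simp only [fFresh, Kc.Fresh, bv_all, bv_ex, bv_imp, bv_and, bv_or, bv_neg, bv_iffB, bv_mem, bv_eq, Fin.cons_zero, Fin.cons_succ, bv_fSub, bv3_fInUlt]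

theorem bv3_fConfig :
    bv fConfig (![] : Fin 0 → BSet B) = Kc.Config B := by
  simp only [fConfig, Kc.Config, bv_all, bv_ex, bv_imp, bv_and, bv_or, bv_neg, bv_iffB, bv_mem, bv_eq, Fin.cons_zero, Fin.cons_succ, bv_fOmega, bv3_fNormU, bv3_fLim, bv3_fUnb, bv3_fFresh]

end bv3

end Fm

/-! ### The Boolean readings respect equality -/

namespace Kc

open BSet

variable {B : Type u} [CompleteBooleanAlgebra B]

theorem ext_Ordl_x :
    Ext (fun x : BSet B => Ordl x) := by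
  have h := Fml.ext_bv (B := B) (Fm.fOrdl (0 : Fin 1)) ![]
  simp only [Fm.bv3_fOrdl] at h
  exact h

theorem ext_Lim_l :
    Ext (fun l : BSet B => Lim l) := by
  have h := Fml.ext_bv (B := B) (Fm.fLim (0 : Fin 1)) ![]
  simp only [Fm.bv3_fLim] at h
  exact h

theorem ext_UltraF_d (U : BSet B) :
    Ext (fun d : BSet B => UltraF d U) := by
  have h := Fml.ext_bv (B := B) (Fm.fUltraF (0 : Fin 2) (1 : Fin 2)) ![U]
  simp only [Fm.bv3_fUltraF] at h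
  exact h

theorem ext_UltraF_U (d : BSet B) :
    Ext (fun U : BSet B => UltraF d U) := by
  have h := Fml.ext_bv (B := B) (Fm.fUltraF (1 : Fin 2) (0 : Fin 2)) ![d]
  simp only [Fm.bv3_fUltraF] at h
  exact h

theorem ext_NonPr_d (U : BSet B) :
    Ext (fun d : BSet B => NonPr d U) := by
  have h := Fml.ext_bv (B := B) (Fm.fNonPr (0 : Fin 2) (1 : Fin 2)) ![U]
  simp only [Fm.bv3_fNonPr] at h
  exact h

theorem ext_NonPr_U (d : BSet B) :
    Ext (fun U : BSet B => NonPr d U) := by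
  have h := Fml.ext_bv (B := B) (Fm.fNonPr (1 : Fin 2) (0 : Fin 2)) ![d]
  simp only [Fm.bv3_fNonPr] at h
  exact h

theorem ext_Compl_d (U : BSet B) :
    Ext (fun d : BSet B => Compl d U) := by
  have h := Fml.ext_bv (B := B) (Fm.fCompl (0 : Fin 2) (1 : Fin 2)) ![U]
  simp only [Fm.bv3_fCompl] at h
  exact h

theorem ext_Compl_U (d : BSet B) :
    Ext (fun U : BSet B => Compl d U) := by
  have h := Fml.ext_bv (B := B) (Fm.fCompl (1 : Fin 2) (0 : Fin 2)) ![d]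
  simp only [Fm.bv3_fCompl] at h
  exact h

theorem ext_Diag_d (U : BSet B) :
    Ext (fun d : BSet B => Diag d U) := by
  have h := Fml.ext_bv (B := B) (Fm.fDiag (0 : Fin 2) (1 : Fin 2)) ![U]
  simp only [Fm.bv3_fDiag] at h
  exact h

theorem ext_Diag_U (d : BSet B) :
    Ext (fun U : BSet B => Diag d U) := by
  have h := Fml.ext_bv (B := B) (Fm.fDiag (1 : Fin 2) (0 : Fin 2)) ![d]
  simp only [Fm.bv3_fDiag] at h
  exact h

theorem ext_NormU_w (d U : BSet B) :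
    Ext (fun w : BSet B => NormU w d U) := by
  have h := Fml.ext_bv (B := B) (Fm.fNormU (0 : Fin 3) (1 : Fin 3) (2 : Fin 3)) ![d, U]
  simp only [Fm.bv3_fNormU] at h
  exact h

theorem ext_NormU_d (w U : BSet B) :
    Ext (fun d : BSet B => NormU w d U) := by
  have h := Fml.ext_bv (B := B) (Fm.fNormU (1 : Fin 3) (0 : Fin 3) (2 : Fin 3)) ![w, U]
  simp only [Fm.bv3_fNormU] at h
  exact h

theorem ext_NormU_U (w d : BSet B) :
    Ext (fun U : BSet B => NormU w d U) := by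
  have h := Fml.ext_bv (B := B) (Fm.fNormU (1 : Fin 3) (2 : Fin 3) (0 : Fin 3)) ![w, d]
  simp only [Fm.bv3_fNormU] at h
  exact h

theorem ext_MemU_U (h g : BSet B) :
    Ext (fun U : BSet B => MemU U h g) := by
  have h := Fml.ext_bv (B := B) (Fm.fMemU (0 : Fin 3) (1 : Fin 3) (2 : Fin 3)) ![h, g]
  simp only [Fm.bv3_fMemU] at h
  exact h

theorem ext_MemU_h (U g : BSet B) :
    Ext (fun h : BSet B => MemU U h g) := by
  have h := Fml.ext_bv (B := B) (Fm.fMemU (1 : Fin 3) (0 : Fin 3) (2 : Fin 3)) ![U, g]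
  simp only [Fm.bv3_fMemU] at h
  exact h

theorem ext_MemU_g (U h : BSet B) :
    Ext (fun g : BSet B => MemU U h g) := by
  have h := Fml.ext_bv (B := B) (Fm.fMemU (1 : Fin 3) (2 : Fin 3) (0 : Fin 3)) ![U, h]
  simp only [Fm.bv3_fMemU] at h
  exact h

theorem ext_EqlU_U (h g : BSet B) :
    Ext (fun U : BSet B => EqlU U h g) := by
  have h := Fml.ext_bv (B := B) (Fm.fEqlU (0 : Fin 3) (1 : Fin 3) (2 : Fin 3)) ![h, g]
  simp only [Fm.bv3_fEqlU] at h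
  exact h

theorem ext_EqlU_h (U g : BSet B) :
    Ext (fun h : BSet B => EqlU U h g) := by
  have h := Fml.ext_bv (B := B) (Fm.fEqlU (1 : Fin 3) (0 : Fin 3) (2 : Fin 3)) ![U, g]
  simp only [Fm.bv3_fEqlU] at h
  exact h

theorem ext_EqlU_g (U h : BSet B) :
    Ext (fun g : BSet B => EqlU U h g) := by
  have h := Fml.ext_bv (B := B) (Fm.fEqlU (1 : Fin 3) (2 : Fin 3) (0 : Fin 3)) ![U, h]
  simp only [Fm.bv3_fEqlU] at h
  exact h

theorem ext_InUlt_d (U x : BSet B) :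
    Ext (fun d : BSet B => InUlt d U x) := by
  have h := Fml.ext_bv (B := B) (Fm.fInUlt (0 : Fin 3) (1 : Fin 3) (2 : Fin 3)) ![U, x]
  simp only [Fm.bv3_fInUlt] at h
  exact h

theorem ext_InUlt_U (d x : BSet B) :
    Ext (fun U : BSet B => InUlt d U x) := by
  have h := Fml.ext_bv (B := B) (Fm.fInUlt (1 : Fin 3) (0 : Fin 3) (2 : Fin 3)) ![d, x]
  simp only [Fm.bv3_fInUlt] at h
  exact h

theorem ext_InUlt_x (d U : BSet B) :
    Ext (fun x : BSet B => InUlt d U x) := by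
  have h := Fml.ext_bv (B := B) (Fm.fInUlt (1 : Fin 3) (2 : Fin 3) (0 : Fin 3)) ![d, U]
  simp only [Fm.bv3_fInUlt] at h
  exact h

theorem ext_Unb_l (A : BSet B) :
    Ext (fun l : BSet B => Unb l A) := by
  have h := Fml.ext_bv (B := B) (Fm.fUnb (0 : Fin 2) (1 : Fin 2)) ![A]
  simp only [Fm.bv3_fUnb] at h
  exact h

theorem ext_Unb_A (l : BSet B) :
    Ext (fun A : BSet B => Unb l A) := by
  have h := Fml.ext_bv (B := B) (Fm.fUnb (1 : Fin 2) (0 : Fin 2)) ![l]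
  simp only [Fm.bv3_fUnb] at h
  exact h

theorem ext_Fresh_d (U l A : BSet B) :
    Ext (fun d : BSet B => Fresh d U l A) := by
  have h := Fml.ext_bv (B := B) (Fm.fFresh (0 : Fin 4) (1 : Fin 4) (2 : Fin 4) (3 : Fin 4)) ![U, l, A]
  simp only [Fm.bv3_fFresh] at h
  exact h

theorem ext_Fresh_U (d l A : BSet B) :
    Ext (fun U : BSet B => Fresh d U l A) := by
  have h := Fml.ext_bv (B := B) (Fm.fFresh (1 : Fin 4) (0 : Fin 4) (2 : Fin 4) (3 : Fin 4)) ![d, l, A]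
  simp only [Fm.bv3_fFresh] at h
  exact h

theorem ext_Fresh_l (d U A : BSet B) :
    Ext (fun l : BSet B => Fresh d U l A) := by
  have h := Fml.ext_bv (B := B) (Fm.fFresh (1 : Fin 4) (2 : Fin 4) (0 : Fin 4) (3 : Fin 4)) ![d, U, A]
  simp only [Fm.bv3_fFresh] at h
  exact h

theorem ext_Fresh_A (d U l : BSet B) :
    Ext (fun A : BSet B => Fresh d U l A) := by
  have h := Fml.ext_bv (B := B) (Fm.fFresh (1 : Fin 4) (2 : Fin 4) (3 : Fin 4) (0 : Fin 4)) ![d, U, l]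
  simp only [Fm.bv3_fFresh] at h
  exact h

end Kc

end Pool.Agent.Lib.MP_8fac41_lc.FR
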