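import Pool.Agent.Lib.MP_4d8715_gt.KR.Z.Fml

/-!
# The statement, read in a structure for the language of set theory

`M` is a type and `E : M → M → Prop` a binary relation, read as membership. All definitions below only
quantify over the elements of `M`. They express the usual notions when `(M, E)` is a model of ZFC.
-/

namespace Pool.Agent.Lib.MP_8fac41_lc.FR

namespace Fs

variable {M : Type*} (E : M → M → Prop)

/-! ### Basic notions -/

/-- `x ⊆ y` -/
def Sub (x y : M) : Prop := ∀ z, E z x → E z y

/-- `p = {a, b}` -/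
def UPair (p a b : M) : Prop := ∀ z, E z p ↔ (z = a ∨ z = b)

/-- `p` is the ordered pair `(a, b) = {{a}, {a, b}}` -/
def Pair (p a b : M) : Prop := ∃ u v, UPair E u a a ∧ UPair E v a b ∧ UPair E p u v

/-- `(a, b) ∈ f` -/
def App (f a b : M) : Prop := ∃ p, Pair E p a b ∧ E p f

/-- `f` is a function with domain `d` -/
def FunOn (f d : M) : Prop :=
  (∀ p, E p f → ∃ a b, E a d ∧ Pair E p a b) ∧ ∀ a, E a d → ∃ b, ∀ c, App E f a c ↔ c = b

/-- `f` is a function from `d` to `r` -/
def FunTo (f d r : M) : Prop := FunOn E f d ∧ ∀ a b, App E f a b → E b r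

/-- `x` is the empty set -/
def Emp (x : M) : Prop := ∀ z, ¬ E z x

/-- `y = x ∪ {x}` -/
def Suc (y x : M) : Prop := ∀ z, E z y ↔ (E z x ∨ z = x)

/-- `w` contains the empty set and is closed under `x ↦ x ∪ {x}` -/
def Ind (w : M) : Prop := (∀ o, Emp E o → E o w) ∧ ∀ x y, E x w → Suc E y x → E y w

/-- `w` is the set of the natural numbers, the least inductive set -/
def Omega (w : M) : Prop := Ind E w ∧ ∀ w', Ind E w' → Sub E w w'

/-- `x` is an ordinal: a transitive set of transitive sets -/
def Ordl (x : M) : Prop := (∀ y, E y x → Sub E y x) ∧ ∀ y, E y x → ∀ z, E z y → Sub E z y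

/-- `l` is a limit ordinal -/
def Lim (l : M) : Prop := Ordl E l ∧ (∃ a, E a l) ∧ ∀ a, E a l → ∃ b, E b l ∧ E a b

/-! ### Normal ultrafilters -/

/-- `U` is an ultrafilter on the set `d` -/
def UltraF (d U : M) : Prop :=
  (∀ X, E X U → Sub E X d) ∧
  (∀ X Y, E X U → Sub E X Y → Sub E Y d → E Y U) ∧
  (∀ X Y Z, E X U → E Y U → (∀ z, E z Z ↔ (E z X ∧ E z Y)) → E Z U) ∧
  ∀ X Y, Sub E X d → (∀ z, E z Y ↔ (E z d ∧ ¬ E z X)) → (E X U ↔ ¬ E Y U)

/-- no singleton belongs to `U` -/
def NonPr (d U : M) : Prop := ∀ a X, E a d → (∀ z, E z X ↔ z = a) → ¬ E X U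

/-- `U` is `d`-complete: if `a ∈ d` and `F` is a function from `a` to `U`, then the intersection of all
values of `F` belongs to `U` -/
def Compl (d U : M) : Prop :=
  ∀ a F Z, E a d → FunTo E F a U → (∀ z, E z Z ↔ (E z d ∧ ∀ b X, App E F b X → E z X)) → E Z U

/-- `U` is normal: if `F` is a function from `d` to `U`, then the diagonal intersection
`{z ∈ d : z ∈ F(b) for all b < z}` belongs to `U` -/
def Diag (d U : M) : Prop :=
  ∀ F Z, FunTo E F d U → (∀ z, E z Z ↔ (E z d ∧ ∀ b X, E b z → App E F b X → E z X)) → E Z U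

/-- `U` is a normal ultrafilter on the measurable cardinal `d`: `d` is an ordinal greater than `w = ω` and
`U` is a nonprincipal `d`-complete normal ultrafilter on `d` -/
def NormU (w d U : M) : Prop :=
  Ordl E d ∧ E w d ∧ UltraF E d U ∧ NonPr E d U ∧ Compl E d U ∧ Diag E d U

/-! ### The ultrapower of the universe -/

/-- `{x ∈ d : h(x) ∈ g(x)} ∈ U`, for functions `h`, `g` with domain `d`; in the ultrapower the class of `h`
is a member of the class of `g` -/
def MemU (U h g : M) : Prop := ∃ X, E X U ∧ ∀ x a b, E x X → App E h x a → App E g x b → E a b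

/-- `{x ∈ d : h(x) = g(x)} ∈ U`, for functions `h`, `g` with domain `d`; in the ultrapower the classes of
`h` and `g` are equal -/
def EqlU (U h g : M) : Prop := ∃ X, E X U ∧ ∀ x a b, E x X → App E h x a → App E g x b → a = b

/-- `x` is an element of the transitive collapse `Ult(V, U)` of the ultrapower of the universe by the
ultrafilter `U` on `d`: there are a function `f` with domain `d` and a set `D` of functions with domain `d`
which contains (up to equality modulo `U`) all members of `f` and all members of elements of `D` in the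
sense of the ultrapower, `T` is the transitive collapse of `D`, that is `T(g) = {T(h) : h ∈ D, MemU U h g}` for
`g ∈ D`, and `x = {T(h) : h ∈ D, MemU U h f}` is the value of the collapse at the class of `f` -/
def InUlt (d U x : M) : Prop :=
  ∃ f D T, FunOn E f d ∧ (∀ g, E g D → FunOn E g d) ∧ FunOn E T D ∧
    (∀ g h, (E g D ∨ g = f) → FunOn E h d → MemU E U h g → ∃ h', E h' D ∧ EqlU E U h' h) ∧
    (∀ g y z, E g D → App E T g y → (E z y ↔ ∃ h, E h D ∧ MemU E U h g ∧ App E T h z)) ∧
    ∀ z, E z x ↔ ∃ h, E h D ∧ MemU E U h f ∧ App E T h z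

/-- `A` is an unbounded subset of the limit ordinal `l` -/
def Unb (l A : M) : Prop := Sub E A l ∧ ∀ a, E a l → ∃ b, E b A ∧ E a b

/-- the subset `A` of the limit ordinal `l` is fresh over `Ult(V, U)`: it does not belong to `Ult(V, U)`, but
all its proper initial segments `A ∩ a`, `a < l`, do -/
def Fresh (d U l A : M) : Prop :=
  Sub E A l ∧ ¬ InUlt E d U A ∧ ∀ a C, E a l → (∀ z, E z C ↔ (E z A ∧ E z a)) → InUlt E d U C

/-- there are a measurable cardinal `d`, two normal ultrafilters `U₀`, `U₁` on `d` and a limit ordinal `l`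
such that no unbounded subset of `l` is fresh over `Ult(V, U₀)`, while some unbounded subset of `l` is fresh
over `Ult(V, U₁)` -/
def Config : Prop :=
  ∃ w d U₀ U₁ l, Omega E w ∧ NormU E w d U₀ ∧ NormU E w d U₁ ∧ Lim E l ∧
    (¬ ∃ A, Unb E l A ∧ Fresh E d U₀ l A) ∧ ∃ A, Unb E l A ∧ Fresh E d U₁ l A

end Fs

end Pool.Agent.Lib.MP_8fac41_lc.FR
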